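import Pool.Agent.helper80.HM.SpecA

/-! # Row hm:COND (helper33) -/

set_option autoImplicit false

namespace Pool.Agent.HM

open Finset Pool.Agent.helper33.Mod

theorem COND_E {M c : ℕ} (T : Finset (Fin M)) (h0 : Fin M → Fin c) :
    (c : ℝ) ^ T.card * cn (fun h : Fin M → Fin c => ∀ v ∈ T, h v = h0 v) = (c : ℝ) ^ M := by
  classical
  have h1 : ∀ h : Fin M → Fin c, ind (∀ v ∈ T, h v = h0 v) =
      ∏ v : Fin M, (if v ∈ T then (if h v = h0 v then (1 : ℝ) else 0) else 1) := by
    intro h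
    by_cases hh : ∀ v ∈ T, h v = h0 v
    · rw [ind_true hh]
      symm
      refine Finset.prod_eq_one fun v _ => ?_
      by_cases hv : v ∈ T
      · rw [if_pos hv, if_pos (hh v hv)]
      · rw [if_neg hv]
    · rw [ind_false hh]
      push Not at hh
      obtain ⟨v, hv, hne⟩ := hh
      symm
      refine Finset.prod_eq_zero (Finset.mem_univ v) ?_
      rw [if_pos hv, if_neg hne]
  unfold cn
  simp only [h1]
  have h2 := Finset.prod_univ_sum (fun _ : Fin M => (univ : Finset (Fin c)))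
    (fun v i => if v ∈ T then (if i = h0 v then (1 : ℝ) else 0) else 1)
  rw [Fintype.piFinset_univ] at h2
  rw [← h2]
  have h3 : ∀ v : Fin M, ∑ i : Fin c, (if v ∈ T then (if i = h0 v then (1 : ℝ) else 0) else 1) =
      if v ∈ T then 1 else (c : ℝ) := by
    intro v
    by_cases hv : v ∈ T
    · simp [hv]
    · simp [hv]
  simp only [h3]
  have h4 : (c : ℝ) ^ T.card = ∏ v : Fin M, if v ∈ T then (c : ℝ) else 1 := by
    rw [Finset.prod_ite_mem, Finset.univ_inter, Finset.prod_const]
  rw [h4, ← Finset.prod_mul_distrib]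
  have h5 : ∀ v : Fin M, ((if v ∈ T then (c : ℝ) else 1) * if v ∈ T then 1 else (c : ℝ)) = c := by
    intro v
    by_cases hv : v ∈ T
    · simp [hv]
    · simp [hv]
  rw [Finset.prod_congr rfl fun v _ => h5 v, Finset.prod_const, Finset.card_univ, Fintype.card_fin]

theorem COND (hIN2 : IN2_stmt) : COND_stmt := by
  classical
  intro M c U T P h0 hc hUT hP
  have hcR : (0 : ℝ) < (c : ℝ) := by exact_mod_cast hc
  have hcM : (0 : ℝ) < (c : ℝ) ^ M := by positivity
  have hE := COND_E T h0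
  have hdepE : Dep T (fun h : Fin M → Fin c => ∀ v ∈ T, h v = h0 v) := by
    intro h h' hh
    constructor
    · intro h1 v hv; rw [← hh v hv]; exact h1 v hv
    · intro h1 v hv; rw [hh v hv]; exact h1 v hv
  have hdepR : Dep Tᶜ (fun h : Fin M → Fin c => P (mix U h0 h)) := by
    intro h h' hh
    have : mix U h0 h = mix U h0 h' := by
      funext v
      by_cases hv : v ∈ U
      · rw [mix_mem hv, mix_mem hv]
        exact hh v (Finset.mem_compl.2 (Finset.disjoint_left.1 hUT hv))
      · rw [mix_not_mem hv, mix_not_mem hv]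
    show P _ ↔ P _
    rw [this]
  have hI := hIN2 T _ _ hdepE hdepR
  have hle : cn (fun h : Fin M → Fin c => (∀ v ∈ T, h v = h0 v) ∧ P (mix U h0 h)) ≤ cn P := by
    refine cn_mono ?_
    rintro h ⟨h1, h2⟩
    refine (hP (mix U h0 h) h ?_).1 h2
    intro v hv
    rcases Finset.mem_union.1 hv with h3 | h3
    · exact mix_mem h3
    · rw [mix_not_mem (Finset.disjoint_right.1 hUT h3)]
      exact (h1 v h3).symm
  have hEpos : 0 < cn (fun h : Fin M → Fin c => ∀ v ∈ T, h v = h0 v) := by
    by_contra hcon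
    push Not at hcon
    have h1 : (c : ℝ) ^ T.card * cn (fun h : Fin M → Fin c => ∀ v ∈ T, h v = h0 v) ≤ 0 :=
      mul_nonpos_of_nonneg_of_nonpos (by positivity) hcon
    linarith
  have h1 : cn (fun h : Fin M → Fin c => ∀ v ∈ T, h v = h0 v) * cn (fun h => P (mix U h0 h)) ≤
      cn (fun h : Fin M → Fin c => ∀ v ∈ T, h v = h0 v) * ((c : ℝ) ^ T.card * cn P) := by
    rw [← hI]
    calc (c : ℝ) ^ M * cn (fun h : Fin M → Fin c => (∀ v ∈ T, h v = h0 v) ∧ P (mix U h0 h)) ≤ (c : ℝ) ^ M * cn P :=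
          mul_le_mul_of_nonneg_left hle hcM.le
      _ = ((c : ℝ) ^ T.card * cn (fun h : Fin M → Fin c => ∀ v ∈ T, h v = h0 v)) * cn P := by rw [hE]
      _ = _ := by ring
  exact le_of_mul_le_mul_left h1 hEpos

end Pool.Agent.HM
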