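import Pool.Agent.helper80.HM.SpecA

/-! # Row hm:INJ (helper33) -/

set_option autoImplicit false

namespace Pool.Agent.HM

open Finset Pool.Agent.helper33.Mod

theorem INJ (hIN2 : IN2_stmt) : INJ_stmt := by
  classical
  intro M c U T K h0 hc hUT hK hInj
  have hcR : (0 : ℝ) < (c : ℝ) := by exact_mod_cast hc
  have hcM : (0 : ℝ) < (c : ℝ) ^ M := by positivity
  have hYU : K \ T ⊆ U := by
    intro v hv
    rcases Finset.mem_union.1 (hK (Finset.mem_sdiff.1 hv).1) with h | h
    · exact h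
    · exact absurd h (Finset.mem_sdiff.1 hv).2
  have hdepE : Dep T (fun h : Fin M → Fin c => ∀ v ∈ T, h v = h0 v) := by
    intro h h' hh
    constructor
    · intro h1 v hv; rw [← hh v hv]; exact h1 v hv
    · intro h1 v hv; rw [hh v hv]; exact h1 v hv
  have hdepR : Dep Tᶜ (fun h : Fin M → Fin c => Inj (mix U h0 h) (T ∪ K \ T)) := by
    intro h h' hh
    have : mix U h0 h = mix U h0 h' := by
      funext v
      by_cases hv : v ∈ U
      · rw [mix_mem hv, mix_mem hv]
        exact hh v (Finset.mem_compl.2 (Finset.disjoint_left.1 hUT hv))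
      · rw [mix_not_mem hv, mix_not_mem hv]
    show Inj _ _ ↔ Inj _ _
    rw [this]
  have hI := hIN2 T _ _ hdepE hdepR
  have hext := inj_extend (V := Fin M) hc T (fun h : Fin M → Fin c => ind (∀ v ∈ T, h v = h0 v)) (fun h => ind_nonneg _)
    (by
      intro h hh
      by_cases h1 : ∀ v ∈ T, h v = h0 v
      · exact (inj_congr h1).2 hInj
      · exact absurd (ind_false h1) hh)
    (K \ T) Finset.disjoint_sdiff
    (by
      intro v hv h i
      refine ind_congr ?_
      have hvT := (Finset.mem_sdiff.1 hv).2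
      constructor
      · intro h1 u hu
        have h2 := h1 u hu
        rwa [Function.update_of_ne (by rintro rfl; exact hvT hu)] at h2
      · intro h1 u hu
        rw [Function.update_of_ne (by rintro rfl; exact hvT hu)]
        exact h1 u hu)
  have hRHS : ∑ h : Fin M → Fin c, ind (∀ v ∈ T, h v = h0 v) * ind (Inj h (T ∪ K \ T)) =
      cn (fun h : Fin M → Fin c => (∀ v ∈ T, h v = h0 v) ∧ Inj (mix U h0 h) (T ∪ K \ T)) := by
    unfold cn
    refine Finset.sum_congr rfl fun h _ => ?_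
    rw [ind_and]
    by_cases h1 : ∀ v ∈ T, h v = h0 v
    · congr 1
      refine ind_congr (inj_congr ?_)
      intro v hv
      rcases Finset.mem_union.1 hv with h2 | h2
      · rw [mix_not_mem (Finset.disjoint_right.1 hUT h2)]
        exact h1 v h2
      · rw [mix_mem (hYU h2)]
    · rw [ind_false h1, zero_mul, zero_mul]
  rw [hRHS] at hext
  set E := cn (fun h : Fin M → Fin c => ∀ v ∈ T, h v = h0 v) with hE
  have hEpos : 0 < E := by
    rw [hE]
    unfold cn
    have h1 : ind (∀ v ∈ T, h0 v = h0 v) ≤ ∑ h : Fin M → Fin c, ind (∀ v ∈ T, h v = h0 v) :=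
      Finset.single_le_sum (f := fun h : Fin M → Fin c => ind (∀ v ∈ T, h v = h0 v))
        (fun h _ => ind_nonneg _) (Finset.mem_univ h0)
    rw [ind_true (fun v _ => rfl)] at h1
    linarith
  set R := cn (fun h : Fin M → Fin c => Inj (mix U h0 h) (T ∪ K \ T)) with hR
  have hext' : (1 - ((T ∪ K \ T).card : ℝ) ^ 2 / (2 * c)) * E ≤
      cn (fun h : Fin M → Fin c => (∀ v ∈ T, h v = h0 v) ∧ Inj (mix U h0 h) (T ∪ K \ T)) := hext
  have h2 : (1 - ((T ∪ K \ T).card : ℝ) ^ 2 / (2 * c)) * (c : ℝ) ^ M ≤ R := by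
    have h3 : E * ((1 - ((T ∪ K \ T).card : ℝ) ^ 2 / (2 * c)) * (c : ℝ) ^ M) ≤ E * R := by
      rw [← hI]
      calc E * ((1 - ((T ∪ K \ T).card : ℝ) ^ 2 / (2 * c)) * (c : ℝ) ^ M) =
            (c : ℝ) ^ M * ((1 - ((T ∪ K \ T).card : ℝ) ^ 2 / (2 * c)) * E) := by ring
        _ ≤ _ := mul_le_mul_of_nonneg_left hext' hcM.le
    exact le_of_mul_le_mul_left h3 hEpos
  have h4 : cn (fun h : Fin M → Fin c => ¬ Inj (mix U h0 h) K) ≤ (c : ℝ) ^ M - R := by
    have h5 : cn (fun h : Fin M → Fin c => ¬ Inj (mix U h0 h) (T ∪ K \ T)) = (c : ℝ) ^ M - R := by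
      have h6 : (c : ℝ) ^ M = cn (fun _ : Fin M → Fin c => True) := by rw [cn_true, Fintype.card_fin]
      rw [h6, hR]
      unfold cn
      rw [← Finset.sum_sub_distrib]
      refine Finset.sum_congr rfl fun h _ => ?_
      rw [ind_not, ind_true trivial]
    rw [← h5]
    refine cn_mono fun h h7 h8 => h7 (h8.mono ?_)
    intro v hv
    by_cases hvT : v ∈ T
    · exact Finset.mem_union_left _ hvT
    · exact Finset.mem_union_right _ (Finset.mem_sdiff.2 ⟨hv, hvT⟩)
  have h9 : T ∪ K \ T = K ∪ T := by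
    rw [Finset.union_sdiff_self_eq_union, Finset.union_comm]
  rw [h9] at h2
  linarith

end Pool.Agent.HM
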