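import Pool.Agent.helper80.HM.SpecA

/-! # Row hm:KEY (helper33) -/

set_option autoImplicit false

namespace Pool.Agent.HM

open Finset Pool.Agent.helper33.Mod

theorem KEY_idx {N i b i' b' : ℕ} (hb : b < N) (hb' : b' < N) (h : (i, b) ≠ (i', b')) :
    i * N + b ≠ i' * N + b' := by
  intro he
  apply h
  have hN : 0 < N := lt_of_le_of_lt (Nat.zero_le _) hb
  have h1 : (i * N + b) % N = (i' * N + b') % N := by rw [he]
  rw [Nat.mul_add_mod', Nat.mul_add_mod', Nat.mod_eq_of_lt hb, Nat.mod_eq_of_lt hb'] at h1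
  subst h1
  have h2 : i * N = i' * N := by omega
  rw [Nat.eq_of_mul_eq_mul_right hN h2]

theorem KEY (hEET : EET_stmt) (hNDM : NDM_stmt) (hGRD : GRD_stmt) (hBKS : BKS_stmt) (hGBK : GBK_stmt)
    (hGBP : GBP_stmt) (hKCN : KCN_stmt) : KEY_stmt := by
  intro M a t S k c σ l L N g lv d r J φ m V T0 β B hPar hRun hdt hApp hra hm hmm hlv hV hT0 hT0c hClos
  by_contra hcon
  push Not at hcon
  obtain ⟨hE1, hE2, hc0, hLk, hl2, h2lL, hN3, hσ1, hLd, hLds, hτ1, hτ2, hτ3⟩ := hEET hPar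
  obtain ⟨hn1, hn2, hn3, hn4⟩ := hNDM hPar hEET
  set X := flt (KS k V T0) fun Q => m (orI (gQ Q) β) = true ∧ ¬ AccQ l B Q with hX
  have htau : 2 * tau t σ d = (1 / 2 : ℝ) ^ ((t - d) * σ) := by
    unfold tau
    rw [pow_add, pow_one]; ring
  have htau0 : 0 ≤ tau t σ d := by unfold tau; positivity
  have hXsub : X ⊆ KS k V T0 := fun Q hQ => (mem_flt.1 hQ).1
  rw [htau] at hcon
  obtain ⟨T, hT0T, hTV, hTc, hTX, hTv⟩ := hGRD V T0 X ((t - d) * σ) hT0 hXsub hcon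
  have hTLd : T.card ≤ Ld t σ d := by
    have h1 := hLds d hdt
    have h2 : (t - d) * σ ≤ t * σ := Nat.mul_le_mul_right σ (Nat.sub_le t d)
    omega
  have h2L := hLd d
  have hTl : T.card ≤ l := by omega
  have hTk : T.card ≤ k := by omega
  have hX1 : Xt X T ⊆ KS k V T := by
    intro Q hQ
    obtain ⟨h1, h2⟩ := mem_Xt.1 hQ
    obtain ⟨h3, h4, _⟩ := mem_KS.1 (hXsub h1)
    exact mem_KS.2 ⟨h3, h4, h2⟩
  have hpos : (0 : ℝ) < (Xt X T).card := by
    refine lt_of_le_of_lt ?_ hTX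
    positivity
  obtain ⟨Q1, hQ1⟩ : (Xt X T).Nonempty := by
    rw [← Finset.card_pos]; exact_mod_cast hpos
  have hn3d := hn3 d
  obtain ⟨hb1, hb2⟩ := hn4 d V.card T.card hV hTl
  have hXX : ∀ v ∈ V \ T, ((Xt (Xt X T) (insert v T)).card : ℝ) * (KS k V T).card ≤
      2 * ((Xt X T).card * (KS k V (insert v T)).card) := by
    intro v hv
    have he : Xt (Xt X T) (insert v T) = Xt X (insert v T) := by
      ext Q
      rw [mem_Xt, mem_Xt, mem_Xt]
      constructor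
      · rintro ⟨⟨h1, _⟩, h2⟩; exact ⟨h1, h2⟩
      · rintro ⟨h1, h2⟩; exact ⟨⟨h1, (Finset.subset_insert v T).trans h2⟩, h2⟩
    rw [he]
    exact hTv v hv
  have hkn : k ≤ (nd a k L N d - T.card) + T.card := by omega
  obtain ⟨U, hU1, hU2⟩ := hBKS V T (Xt X T) (nd a k L N d - T.card) (a * N) (tau t σ d) hTV hX1 htau0 hTk hkn hb1 hb2
    hXX (by rw [htau]; exact hTX)
  -- the blocks
  have hidx : ∀ i < a, ∀ b < N, i * N + b < a * N := by
    intro i hi b hb
    calc i * N + b < i * N + N := by omega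
      _ = (i + 1) * N := by ring
      _ ≤ a * N := Nat.mul_le_mul_right N hi
  have hsub : ∀ i < a, ∀ b < N, U (i * N + b) ⊆ V \ T := fun i hi b hb => (hU1 _ (hidx i hi b hb)).1
  have hdisT : ∀ i < a, ∀ b < N, Disjoint (U (i * N + b)) T := by
    intro i hi b hb
    exact Finset.disjoint_of_subset_left (hsub i hi b hb) Finset.sdiff_disjoint
  have hBlk : Blk V T (fun i b => U (i * N + b)) a N := by
    refine ⟨fun i hi b hb => (hsub i hi b hb).trans Finset.sdiff_subset, hdisT, ?_⟩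
    intro i hi b hb i' hi' b' hb' hne
    exact hU2 _ (hidx i hi b hb) _ (hidx i' hi' b' hb') (KEY_idx hb hb' hne)
  have hmX : ∀ Q ∈ X, m (orI (gQ Q) β) = true := fun Q hQ => (mem_flt.1 hQ).2.1
  have hGood : ∀ i < a, ∀ b < N, Good c (fun j => g (J j)) m T β (U (i * N + b)) := by
    intro i hi b hb h0 hInj β' hββ' hmβ'
    obtain ⟨_, hUc, hUX⟩ := hU1 _ (hidx i hi b hb)
    have hcard : (U (i * N + b) ∪ T).card = nd a k L N d := by
      rw [Finset.card_union_of_disjoint (hdisT i hi b hb), hUc]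
      omega
    obtain ⟨F, hF⟩ := hApp (U (i * N + b) ∪ T) hcard.ge β'
    have hXbsub : Xb (Xt X T) (U (i * N + b)) T ⊆ KS k (U (i * N + b) ∪ T) T := by
      intro Q hQ
      obtain ⟨h1, h2, h3⟩ := mem_Xb.1 hQ
      obtain ⟨_, h5, _⟩ := mem_KS.1 (hX1 h1)
      exact mem_KS.2 ⟨h3, h5, h2⟩
    obtain ⟨j, hj, K, hK, hKl, hKV⟩ := hGBK d (U (i * N + b) ∪ T) T β β' F J φ m (Xb (Xt X T) (U (i * N + b)) T)
      hRun hF Finset.subset_union_right hTLd hm hmm hlv hββ' hmβ' hXbsub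
      (fun Q hQ => hmX Q (mem_Xt.1 (mem_Xb.1 hQ).1).1) hUX
    exact ⟨j, hj, hGBP d (U (i * N + b)) T K β' F (J j) h0 hPar hF (hdisT i hi b hb) hTl (hlv j) hK hKl hKV hInj⟩
  have hall : ∀ β', β ≤ β' → (∀ j, g (J j) β' = true) → m β' = true := by
    intro β' hββ' hj
    have h1 := hmX Q1 (mem_Xt.1 hQ1).1
    have h2 : m (orI (gQ Q1) β') = true := mono_true hmm (orI_mono le_rfl hββ') h1
    rw [hm] at h2 ⊢
    have h3 : (fun j => g (J j) (orI (gQ Q1) β')) = fun j => g (J j) β' := by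
      funext j
      rw [hj j]
      exact mono_true (hRun.mono (J j)) (le_orI_right _ _) (hj j)
    rw [h3] at h2
    exact h2
  have hfin := hKCN (fun j => g (J j)) m V T (fun i b => U (i * N + b)) β hc0 hra hPar.haN
    (fun j => hRun.mono (J j)) hmm hall hTV hBlk hGood
  have hTB : T ∈ B := by
    refine hClos.mem T (by omega) ?_
    refine le_trans (cn_mono ?_) hfin
    rintro h ⟨h1, h2, _⟩
    exact ⟨h1, by simpa using h2⟩
  have hQX := (mem_flt.1 (mem_Xt.1 hQ1).1).2.2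
  exact hQX ⟨T, hTB, hTl, (mem_Xt.1 hQ1).2⟩

end Pool.Agent.HM
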