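import Pool.Agent.helper80.HM.SpecB

/-! # Row hm:LMO (helper33) -/

set_option autoImplicit false

namespace Pool.Agent.HM

open Finset Pool.Agent.helper33.Mod

theorem LMO (hCLO : CLO_stmt) (hEET : EET_stmt) (hNDM : NDM_stmt) (hMKA : MKA_stmt) (hMKB : MKB_stmt) :
    LMO_stmt := by
  classical
  intro M a t S k c σ l L N g lv d V β F i r J φ hPar hV0 hra hJ hg hφ hlv
  obtain ⟨hE1, hE2, hc0, hLk, hl2, h2lL, hN3, hσ1, hLd, hLds, hτ1, hτ2, hτ3⟩ := hEET hPar
  obtain ⟨hn1, hn2, hn3, hn4⟩ := hNDM hPar hEET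
  have hcc := hPar.hc
  obtain ⟨B, hB⟩ := hCLO (M := M) (c := c) (L := L) (N := N)
    (fun h => φ (fun j => bl (AccH l (F (J j)) h)) = true) hc0 (by omega)
  have hne : ∀ j, J j ≠ i := fun j => (hJ j).ne
  refine ⟨B, ⟨?_, ?_⟩⟩
  · refine ⟨fun h => Acc B h ∧ ¬ φ (fun j => bl (AccH l (F (J j)) h)) = true, hB.neg, ?_⟩
    intro h hprev hacc hnP
    rw [Function.update_self] at hacc
    obtain ⟨K, hK, _, hInj⟩ := hacc
    have hΦ : φ (fun j => bl (AccH l (F (J j)) h)) = true := by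
      by_contra hcon
      exact hnP ⟨⟨K, hK, hInj⟩, hcon⟩
    rw [hg]
    have hle : (fun j => bl (AccH l (F (J j)) h)) ≤ fun j => g (J j) (orI (gV V h) β) := by
      intro j
      rw [Bool.le_iff_imp]
      intro hb
      refine hprev (J j) (hJ j) (hlv j) ?_
      rw [Function.update_of_ne (hne j)]
      exact bl_eq_true.1 hb
    exact Bool.le_iff_imp.1 (hφ hle) hΦ
  · intro T hTV hTc
    have h2L := hLd d
    have hn30 := hn3 0
    refine ⟨flt (KS k V T) fun Q => φ (fun j => bl (AccQ l (F (J j)) Q)) = true ∧ ¬ AccQ l B Q, ?_, ?_⟩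
    · have hsub : (flt (KS k V T) fun Q => φ (fun j => bl (AccQ l (F (J j)) Q)) = true ∧ ¬ AccQ l B Q) ⊆
          flt (KS k V T) fun Q => ∃ Z ⊆ Q \ T, Z ∈ Mn B T Z.card ∧ l < T.card + Z.card ∧
            T.card + Z.card ≤ L := by
        intro Q hQ
        obtain ⟨h1, h2, h3⟩ := mem_flt.1 hQ
        exact mem_flt.2 ⟨h1, hMKA V T (fun j => F (J j)) φ B hφ hra hPar.hL (by omega) hB Q h1 h2 h3⟩
      have hnd0 : nd a k L N 0 = 16 * L * N * k := by unfold nd; rw [pow_zero, mul_one]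
      have hM := hMKB (k := k) (l := l) V T B hB.cl hTV (by omega) (by omega) (by omega) (by omega)
        (by rw [← hnd0]; exact hV0)
      have hM2 : (((flt (KS k V T) fun Q => φ (fun j => bl (AccQ l (F (J j)) Q)) = true ∧ ¬ AccQ l B Q).card : ℕ) : ℝ) ≤
          (1 / 4) ^ l * (KS k V T).card :=
        (Nat.cast_le.2 (Finset.card_le_card hsub)).trans hM
      have hKS0 : (0 : ℝ) ≤ (KS k V T).card := Nat.cast_nonneg _
      calc (S : ℝ) * ((flt (KS k V T) fun Q => φ (fun j => bl (AccQ l (F (J j)) Q)) = true ∧ ¬ AccQ l B Q).card : ℝ) ≤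
            (S : ℝ) * ((1 / 4) ^ l * (KS k V T).card) := mul_le_mul_of_nonneg_left hM2 (Nat.cast_nonneg _)
        _ = ((S : ℝ) * (1 / 4) ^ l) * (KS k V T).card := by ring
        _ ≤ tau t σ d * (KS k V T).card := mul_le_mul_of_nonneg_right (hτ2 d) hKS0
    · intro Q hQ hprev hgi hQX
      rw [Function.update_self]
      by_contra hnot
      refine hQX (mem_flt.2 ⟨hQ, ?_, hnot⟩)
      rw [hg] at hgi
      have hle : (fun j => g (J j) (orI (gQ Q) β)) ≤ fun j => bl (AccQ l (F (J j)) Q) := by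
        intro j
        rw [Bool.le_iff_imp]
        intro hb
        have := hprev (J j) (hJ j) (hlv j) hb
        rw [Function.update_of_ne (hne j)] at this
        exact bl_eq_true.2 this
      exact Bool.le_iff_imp.1 (hφ hle) hgi

end Pool.Agent.HM
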