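import Pool.Agent.helper80.HM.SpecB

/-! # Row hm:TOP (helper33) -/

set_option autoImplicit false

namespace Pool.Agent.HM

open Finset Pool.Agent.helper33.Mod

theorem TOP (hEET : EET_stmt) (hNDM : NDM_stmt) (hBGR : BGR_stmt) (hINJ : INJ_stmt) : TOP_stmt := by
  classical
  intro M a t S k κ σ l L N g lv o hPar hRun hApp hkκ hnd hSep
  obtain ⟨hE1, hE2, hc0, hLk, hl2, h2lL, hN3, hσ1, hLd, hLds, hτ1, hτ2, hτ3⟩ := hEET hPar
  obtain ⟨hn1, hn2, hn3, hn4⟩ := hNDM hPar hEET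
  have hn3t := hn3 t
  obtain ⟨V, β, hVc, hQ, hH⟩ := hBGR (g o) (hRun.mono o) hSep (by omega) hkκ (by omega)
  obtain ⟨F, hF⟩ := hApp V (by rw [hVc]; exact hnd) β
  have hp := hF.pos ∅ (Finset.empty_subset _) (by simp)
  have hkV : k ≤ V.card := by rw [hVc]; omega
  obtain ⟨Q0, hQ0V, hQ0c⟩ := Finset.exists_subset_card_eq hkV
  have hKSpos : 0 < (KS k V ∅).card :=
    Finset.card_pos.2 ⟨Q0, mem_KS.2 ⟨hQ0V, hQ0c, Finset.empty_subset _⟩⟩
  have hKSposR : (0 : ℝ) < (KS k V ∅).card := by exact_mod_cast hKSpos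
  have hτt := hτ3 t
  obtain ⟨Q, hQK, hQn⟩ : ∃ Q ∈ KS k V ∅, ¬ ∃ i, lv i ≤ t ∧ g i (orI (gQ Q) β) = true ∧ ¬ AccQ l (F i) Q := by
    by_contra hcon
    push Not at hcon
    have h1 : KS k V ∅ ⊆ flt (KS k V ∅) fun Q => ∃ i, lv i ≤ t ∧ g i (orI (gQ Q) β) = true ∧ ¬ AccQ l (F i) Q := by
      intro Q hQ
      exact mem_flt.2 ⟨hQ, hcon Q hQ⟩
    have h2 : ((KS k V ∅).card : ℝ) ≤ _ := Nat.cast_le.2 (Finset.card_le_card h1)
    have h3 := h2.trans hp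
    nlinarith
  obtain ⟨hQV, hQc, _⟩ := mem_KS.1 hQK
  have hacc : AccQ l (F o) Q := by
    by_contra h
    exact hQn ⟨o, hRun.lv_le o, hQ Q hQV hQc, h⟩
  obtain ⟨K, hKF, hKl, hKQ⟩ := hacc
  have hneg : cn (fun h : Fin M → Fin (k - 1) => Inj h K) ≤ S * ET M (k - 1) L N := by
    refine le_trans (cn_mono ?_) hF.neg
    intro h hi
    exact ⟨o, hRun.lv_le o, ⟨K, hKF, hKl, hi⟩, hH h⟩
  have hE10 := hE1 0 (Nat.zero_le _)
  rw [pow_zero, one_mul] at hE10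
  have hI := hINJ (M := M) (c := k - 1) univ ∅ K (fun _ => ⟨0, hc0⟩) hc0 (Finset.disjoint_empty_right _)
    (by rw [Finset.union_empty]; exact Finset.subset_univ K) (by unfold Inj; simp)
  have hmix : ∀ h : Fin M → Fin (k - 1), mix univ (fun _ => ⟨0, hc0⟩) h = h := by
    intro h; funext v; exact mix_mem (Finset.mem_univ v)
  simp only [hmix, Finset.union_empty] at hI
  have hcR : (0 : ℝ) < ((k - 1 : ℕ) : ℝ) := by exact_mod_cast hc0
  have hcM : (0 : ℝ) < ((k - 1 : ℕ) : ℝ) ^ M := by positivity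
  have hKlR : (K.card : ℝ) ≤ l := by exact_mod_cast hKl
  have hI2 : (K.card : ℝ) ^ 2 / (2 * ((k - 1 : ℕ) : ℝ)) ≤ 1 / 8 := by
    refine le_trans ?_ hE2
    have : (K.card : ℝ) ≤ 2 * l := by
      have : (0 : ℝ) ≤ l := Nat.cast_nonneg l
      linarith
    gcongr
  have hI3 : cn (fun h : Fin M → Fin (k - 1) => ¬ Inj h K) ≤ 1 / 8 * ((k - 1 : ℕ) : ℝ) ^ M :=
    hI.trans (mul_le_mul_of_nonneg_right hI2 hcM.le)
  have hsum : cn (fun h : Fin M → Fin (k - 1) => Inj h K) + cn (fun h : Fin M → Fin (k - 1) => ¬ Inj h K) =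
      ((k - 1 : ℕ) : ℝ) ^ M := by
    have h6 : ((k - 1 : ℕ) : ℝ) ^ M = cn (fun _ : Fin M → Fin (k - 1) => True) := by rw [cn_true, Fintype.card_fin]
    rw [h6]
    unfold cn
    rw [← Finset.sum_add_distrib]
    refine Finset.sum_congr rfl fun h _ => ?_
    rw [ind_not, ind_true trivial]
    ring
  linarith

end Pool.Agent.HM
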